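import Mathlib

/-!
# Mellin transforms of functions with an asymptotic power series at zero: continuation
-/

set_option autoImplicit false

open MeasureTheory Set Filter Topology Asymptotics

namespace Pool.Agent.W5h46.MT

/-- the function `log^l f` -/
noncomputable def lf (l : ℕ) (f : ℝ → ℂ) (t : ℝ) : ℂ := (Real.log t : ℂ) ^ l * f t

theorem lf_succ (l : ℕ) (f : ℝ → ℂ) : lf (l + 1) f = fun t => Real.log t • lf l f t := by
  funext t
  simp only [lf, Complex.real_smul]
  ring

theorem lf_zero (f : ℝ → ℂ) : lf 0 f = f := by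
  funext t
  simp [lf]

theorem lf_locInt {f : ℝ → ℂ} (hf : LocallyIntegrableOn f (Ioi 0)) (l : ℕ) :
    LocallyIntegrableOn (lf l f) (Ioi 0) := by
  have h1 : ContinuousOn (fun t : ℝ => (Real.log t : ℂ) ^ l) (Ioi 0) := by
    refine ContinuousOn.pow ?_ l
    exact Complex.continuous_ofReal.comp_continuousOn
      (Real.continuousOn_log.mono (subset_compl_singleton_iff.mpr self_notMem_Ioi))
  exact hf.continuousOn_mul h1 isOpen_Ioi.isLocallyClosed

theorem lf_top {f : ℝ → ℂ} {a : ℝ} (hf : f =O[atTop] fun t : ℝ => t ^ (-a)) (l : ℕ) :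
    ∀ b : ℝ, b < a → lf l f =O[atTop] fun t : ℝ => t ^ (-b) := by
  induction l with
  | zero =>
    intro b hb
    rw [lf_zero]
    refine hf.trans (IsBigO.of_bound 1 ?_)
    filter_upwards [eventually_ge_atTop (1 : ℝ)] with t ht
    rw [one_mul, Real.norm_of_nonneg (by positivity), Real.norm_of_nonneg (by positivity)]
    exact Real.rpow_le_rpow_of_exponent_le ht (by linarith)
  | succ l ih =>
    intro b hb
    obtain ⟨c, hc1, hc2⟩ := exists_between hb
    rw [lf_succ]
    exact isBigO_rpow_top_log_smul hc1 (ih c hc2)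

theorem lf_bot {f : ℝ → ℂ} {a : ℝ} (hf : f =O[𝓝[>] 0] fun t : ℝ => t ^ (-a)) (l : ℕ) :
    ∀ b : ℝ, a < b → lf l f =O[𝓝[>] 0] fun t : ℝ => t ^ (-b) := by
  induction l with
  | zero =>
    intro b hb
    rw [lf_zero]
    refine hf.trans (IsBigO.of_bound 1 ?_)
    filter_upwards [Ioo_mem_nhdsGT (zero_lt_one' ℝ)] with t ht
    have h0 : 0 ≤ t := ht.1.le
    rw [one_mul, Real.norm_of_nonneg (by positivity), Real.norm_of_nonneg (by positivity)]
    exact Real.rpow_le_rpow_of_exponent_ge ht.1 ht.2.le (by linarith)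
  | succ l ih =>
    intro b hb
    obtain ⟨c, hc1, hc2⟩ := exists_between hb
    rw [lf_succ]
    exact isBigO_rpow_zero_log_smul hc2 (ih c hc1)

/-- convergence and derivative of the Mellin transforms of `log^l f` -/
theorem lf_deriv {f : ℝ → ℂ} {a b : ℝ} (hf : LocallyIntegrableOn f (Ioi 0)) (ht : f =O[atTop] fun t : ℝ => t ^ (-a))
    (hb : f =O[𝓝[>] 0] fun t : ℝ => t ^ (-b)) (l : ℕ) {s : ℂ} (hs1 : b < s.re) (hs2 : s.re < a) :
    MellinConvergent (lf l f) s ∧ HasDerivAt (mellin (lf l f)) (mellin (lf (l + 1) f) s) s := by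
  obtain ⟨c, hc1, hc2⟩ := exists_between hs2
  obtain ⟨e, he1, he2⟩ := exists_between hs1
  have h1 := lf_locInt hf l
  have h2 := lf_top ht l c hc2
  have h3 := lf_bot hb l e he1
  refine ⟨mellinConvergent_of_isBigO_rpow h1 h2 hc1 h3 he2, ?_⟩
  have h4 := (mellin_hasDerivAt_of_isBigO_rpow h1 h2 hc1 h3 he2).2
  rw [lf_succ]
  exact h4

/-- the power `t^k` cut off at `1` -/
noncomputable def pw (k : ℕ) : ℝ → ℂ := indicator (Ioc 0 1) fun t : ℝ => (t : ℂ) ^ (k : ℂ)

theorem pw_locInt (k : ℕ) : LocallyIntegrableOn (pw k) (Ioi 0) := by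
  have h1 : Integrable (pw k) := by
    have h2 : IntegrableOn (fun t : ℝ => (t : ℂ) ^ (k : ℂ)) (Ioc 0 1) := by
      have h3 : ContinuousOn (fun t : ℝ => (t : ℂ) ^ k) (Icc 0 1) := by fun_prop
      have h4 := h3.integrableOn_Icc (μ := volume)
      refine (h4.mono_set Ioc_subset_Icc_self).congr_fun (fun t _ => ?_) measurableSet_Ioc
      simp
    exact h2.integrable_indicator measurableSet_Ioc
  exact h1.locallyIntegrable.locallyIntegrableOn _

theorem pw_top (k : ℕ) (a : ℝ) : pw k =O[atTop] fun t : ℝ => t ^ (-a) := by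
  refine IsBigO.of_bound 0 ?_
  filter_upwards [eventually_gt_atTop (1 : ℝ)] with t ht
  have : pw k t = 0 := indicator_of_notMem (fun h => absurd h.2 (not_le.2 ht)) _
  rw [this]
  simp

theorem pw_bot (k : ℕ) : pw k =O[𝓝[>] 0] fun t : ℝ => t ^ (-(-(k : ℝ))) := by
  refine IsBigO.of_bound 1 ?_
  filter_upwards [Ioo_mem_nhdsGT (zero_lt_one' ℝ)] with t ht
  have : pw k t = (t : ℂ) ^ (k : ℂ) := indicator_of_mem (show t ∈ Ioc (0 : ℝ) 1 from ⟨ht.1, ht.2.le⟩) _
  rw [this, neg_neg, Complex.norm_cpow_eq_rpow_re_of_pos ht.1, Complex.natCast_re, one_mul,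
    Real.norm_of_nonneg (by have := ht.1; positivity)]

/-- the Mellin transform of `t^k log^l t` on `(0, 1]` -/
theorem pw_mellin (k l : ℕ) : ∀ s : ℂ, -(k : ℝ) < s.re →
    mellin (lf l (pw k)) s = (-1) ^ l * l.factorial / (s + k) ^ (l + 1) := by
  induction l with
  | zero =>
    intro s hs
    rw [lf_zero]
    have h1 := (hasMellin_cpow_Ioc (k : ℂ) (s := s) (by rw [Complex.natCast_re]; linarith)).2
    simpa [pw] using h1
  | succ l ih =>
    intro s hs
    have h1 := (lf_deriv (a := s.re + 1) (b := -(k : ℝ)) (pw_locInt k) (pw_top k _) (pw_bot k) l hs (by linarith)).2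
    have hne : s + k ≠ 0 := by
      intro h
      have h2 := congrArg Complex.re h
      rw [Complex.add_re, Complex.natCast_re, Complex.zero_re] at h2
      linarith
    have h2 : HasDerivAt (fun z : ℂ => (-1) ^ l * (l.factorial : ℂ) / (z + k) ^ (l + 1))
        ((-1) ^ (l + 1) * ((l + 1).factorial : ℂ) / (s + k) ^ (l + 1 + 1)) s := by
      have h3 : HasDerivAt (fun z : ℂ => (z + k) ^ (l + 1)) (((l + 1 : ℕ) : ℂ) * (s + k) ^ l * 1) s := by
        have h4 := ((hasDerivAt_id' s).add_const (k : ℂ)).fun_pow (l + 1)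
        simpa using h4
      have h5 := (h3.inv (pow_ne_zero _ hne)).const_mul ((-1) ^ l * (l.factorial : ℂ))
      refine (h5.congr_deriv ?_).congr_of_eventuallyEq ?_
      · rw [Nat.factorial_succ]
        push_cast
        field_simp
        ring
      · exact Eventually.of_forall fun z => by simp [div_eq_mul_inv]
    have h6 : mellin (lf l (pw k)) =ᶠ[𝓝 s] fun z : ℂ => (-1) ^ l * (l.factorial : ℂ) / (z + k) ^ (l + 1) := by
      have hopen : IsOpen {z : ℂ | -(k : ℝ) < z.re} := isOpen_lt continuous_const Complex.continuous_re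
      filter_upwards [hopen.mem_nhds hs] with z hz
      exact ih z hz
    exact h1.unique (h2.congr_of_eventuallyEq h6)

end Pool.Agent.W5h46.MT
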