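import Pool.Agent.W5h46.MT.Cont

/-!
# Mellin transforms of functions with an asymptotic power series at zero: principal parts
-/

set_option autoImplicit false

open MeasureTheory Set Filter Topology Asymptotics

namespace Pool.Agent.W5h46.MT

/-- the function minus the first `K` terms of its expansion, on `(0, 1]` -/
noncomputable def rem (f : ℝ → ℂ) (a : ℕ → ℂ) (K : ℕ) (t : ℝ) : ℂ := f t - ∑ k ∈ Finset.range K, a k * pw k t

theorem rem_succ (f : ℝ → ℂ) (a : ℕ → ℂ) (K : ℕ) : rem f a (K + 1) = fun t => rem f a K t - a K * pw K t := by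
  funext t
  simp only [rem, Finset.sum_range_succ]
  ring

theorem rem_locInt {f : ℝ → ℂ} (hf : LocallyIntegrableOn f (Ioi 0)) (a : ℕ → ℂ) (K : ℕ) :
    LocallyIntegrableOn (rem f a K) (Ioi 0) := by
  induction K with
  | zero =>
    have : rem f a 0 = f := by funext t; simp [rem]
    rwa [this]
  | succ K ih =>
    rw [rem_succ]
    exact ih.sub ((pw_locInt K).continuousOn_mul (continuousOn_const (c := a K)) isOpen_Ioi.isLocallyClosed)

theorem rem_top {f : ℝ → ℂ} {α : ℝ} (ht : f =O[atTop] fun t : ℝ => t ^ (-α)) (a : ℕ → ℂ) (K : ℕ) :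
    rem f a K =O[atTop] fun t : ℝ => t ^ (-α) := by
  induction K with
  | zero =>
    have : rem f a 0 = f := by funext t; simp [rem]
    rwa [this]
  | succ K ih =>
    rw [rem_succ]
    exact ih.sub ((pw_top K α).const_mul_left (a K))

theorem rem_bot {f : ℝ → ℂ} (a : ℕ → ℂ) (K : ℕ)
    (h0 : (fun t : ℝ => f t - ∑ k ∈ Finset.range K, a k * (t : ℂ) ^ k) =O[𝓝[>] 0] fun t : ℝ => t ^ (K : ℝ)) :
    rem f a K =O[𝓝[>] 0] fun t : ℝ => t ^ (-(-(K : ℝ))) := by
  rw [neg_neg]
  refine IsBigO.congr' h0 ?_ (EventuallyEq.refl _ _)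
  filter_upwards [Ioo_mem_nhdsGT (zero_lt_one' ℝ)] with t ht
  simp only [rem]
  congr 1
  refine Finset.sum_congr rfl fun k _ => ?_
  have : pw k t = (t : ℂ) ^ (k : ℂ) := indicator_of_mem (show t ∈ Ioc (0 : ℝ) 1 from ⟨ht.1, ht.2.le⟩) _
  rw [this, Complex.cpow_natCast]

/-- the continuation of the Mellin transform, with its principal parts -/
theorem cont {f : ℝ → ℂ} {a : ℕ → ℂ} {α : ℝ} (hf : LocallyIntegrableOn f (Ioi 0))
    (ht : f =O[atTop] fun t : ℝ => t ^ (-α))
    (h0 : ∀ K : ℕ, (fun t : ℝ => f t - ∑ k ∈ Finset.range K, a k * (t : ℂ) ^ k) =O[𝓝[>] 0] fun t : ℝ => t ^ (K : ℝ))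
    (l K : ℕ) :
    ∃ H : ℂ → ℂ, (∀ s : ℂ, -(K : ℝ) < s.re → s.re < α → AnalyticAt ℂ H s) ∧
      ∀ s : ℂ, 0 < s.re → s.re < α → mellin (lf l f) s = H s + ∑ k ∈ Finset.range K,
        a k * ((-1) ^ l * l.factorial / (s + k) ^ (l + 1)) := by
  refine ⟨mellin (lf l (rem f a K)), ?_, ?_⟩
  · intro s hs1 hs2
    have hopen : IsOpen {z : ℂ | -(K : ℝ) < z.re ∧ z.re < α} :=
      (isOpen_lt continuous_const Complex.continuous_re).inter (isOpen_lt Complex.continuous_re continuous_const)
    have hd : DifferentiableOn ℂ (mellin (lf l (rem f a K))) {z : ℂ | -(K : ℝ) < z.re ∧ z.re < α} := by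
      intro z hz
      exact (lf_deriv (rem_locInt hf a K) (rem_top ht a K) (rem_bot a K (h0 K)) l hz.1
        hz.2).2.differentiableAt.differentiableWithinAt
    exact hd.analyticAt (hopen.mem_nhds ⟨hs1, hs2⟩)
  · intro s hs1 hs2
    induction K with
    | zero =>
      have : rem f a 0 = f := by funext t; simp [rem]
      simp [this]
    | succ K ih =>
      rw [ih, Finset.sum_range_succ]
      have hK : -(K : ℝ) < s.re := lt_of_le_of_lt (by simp) hs1
      have h1 := (lf_deriv (rem_locInt hf a K) (rem_top ht a K) (rem_bot a K (h0 K)) l hK hs2).1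
      have h2 := (lf_deriv (pw_locInt K) (pw_top K α) (pw_bot K) l hK hs2).1
      have h3 := (hasMellin_sub h1 (h2.const_smul (a K))).2
      rw [mellin_const_smul, pw_mellin K l s hK] at h3
      have h4 : lf l (rem f a (K + 1)) = fun t => lf l (rem f a K) t - a K • lf l (pw K) t := by
        funext t
        rw [rem_succ]
        simp only [lf, smul_eq_mul]
        ring
      rw [h4, h3, smul_eq_mul]
      ring

end Pool.Agent.W5h46.MT
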