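import Mathlib

/-!
# Algebraic independence of functions from the leading coefficients at their poles
-/

set_option autoImplicit false

open Set Filter Topology MvPolynomial Finset

namespace Pool.Agent.W5h46.MT

/-- the weights: `0` for the variable `s`, `l y + 1` for the function with the index `y` -/
def wt {κ : Type} (l : κ → ℕ) (o : Option κ) : ℕ := o.elim 0 fun y => l y + 1

theorem weight_eq {κ : Type} [Fintype κ] (l : κ → ℕ) (m : Option κ →₀ ℕ) :
    Finsupp.weight (wt l) m = ∑ y, m (some y) * (l y + 1) := by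
  classical
  rw [Finsupp.weight_apply, Finsupp.sum_fintype _ _ (by simp), Fintype.sum_option]
  simp [wt]

/-- the product of the `s + j`, `j < K`, `j ≠ k` -/
noncomputable def qk (K k : ℕ) (s : ℂ) : ℂ := ∏ j ∈ (range K).erase k, (s + j)

/-- the product of the `s + j`, `j < K` -/
noncomputable def qq (K : ℕ) (s : ℂ) : ℂ := ∏ j ∈ range K, (s + j)

theorem qq_eq {K k : ℕ} (hk : k < K) (s : ℂ) : qq K s = (s + k) * qk K k s := by
  rw [qq, qk, Finset.mul_prod_erase (range K) (fun j : ℕ => s + (j : ℂ)) (Finset.mem_range.2 hk)]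

theorem qk_ne {K k : ℕ} : qk K k (-(k : ℂ)) ≠ 0 := by
  rw [qk, Finset.prod_ne_zero_iff]
  intro j hj h
  have h1 : (j : ℂ) = k := by linear_combination h
  exact (Finset.mem_erase.1 hj).1 (by exact_mod_cast h1)

theorem qk_zero {K k k0 : ℕ} (hk0 : k0 < K) (h : k ≠ k0) : qk K k (-(k0 : ℂ)) = 0 := by
  rw [qk]
  exact Finset.prod_eq_zero (Finset.mem_erase.2 ⟨h.symm, Finset.mem_range.2 hk0⟩) (by simp)

theorem indep_of_poles {κ : Type} [Fintype κ] (l : κ → ℕ) (F : κ → ℂ → ℂ) (α : ℝ) (hα : 0 < α) (b : κ → ℕ → ℂ)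
    (hF : ∀ y (K : ℕ), ∃ H : ℂ → ℂ, (∀ s : ℂ, -(K : ℝ) < s.re → s.re < α → AnalyticAt ℂ H s) ∧
      ∀ s : ℂ, 0 < s.re → s.re < α → F y s = H s + ∑ k ∈ Finset.range K, b y k / (s + k) ^ (l y + 1))
    (hind : ∀ (W : ℕ) (P : MvPolynomial (Option κ) ℂ), P ≠ 0 → IsWeightedHomogeneous (wt l) P W →
      ∃ k : ℕ, eval (fun o : Option κ => o.elim (-(k : ℂ)) fun y => b y k) P ≠ 0)
    (P : MvPolynomial (Option κ) ℂ)
    (hP : ∀ s : ℂ, 0 < s.re → s.re < α → eval (fun o : Option κ => o.elim s fun y => F y s) P = 0) : P = 0 := by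
  classical
  by_contra hP0
  have hne : P.support.Nonempty := support_nonempty.2 hP0
  obtain ⟨m0, hm0, hmax⟩ := Finset.exists_max_image P.support (fun m => Finsupp.weight (wt l) m) hne
  set W := Finsupp.weight (wt l) m0 with hW
  set Q := weightedHomogeneousComponent (wt l) W P with hQ
  have hQ0 : Q ≠ 0 := by
    intro h
    have h1 := congrArg (coeff m0) h
    rw [hQ, coeff_weightedHomogeneousComponent, if_pos rfl, coeff_zero] at h1
    exact mem_support_iff.1 hm0 h1
  obtain ⟨k0, hk0⟩ := hind W Q hQ0 (weightedHomogeneousComponent_isWeightedHomogeneous W P)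
  set K := k0 + 1 with hK
  have hkK : k0 < K := Nat.lt_succ_self _
  choose H hHan hHeq using fun y => hF y K
  set u : κ → ℂ → ℂ := fun y s => qq K s ^ (l y + 1) * H y s + ∑ k ∈ range K, b y k * qk K k s ^ (l y + 1) with hu
  set Ψ : ℂ → ℂ := fun s => ∑ m ∈ P.support, P.coeff m * (s ^ m none * ∏ y, u y s ^ m (some y)) *
    qq K s ^ (W - Finsupp.weight (wt l) m) with hΨ
  have hqan : ∀ s : ℂ, AnalyticAt ℂ (qq K) s := by
    intro s
    exact Finset.analyticAt_fun_prod _ fun j _ => analyticAt_id.add analyticAt_const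
  have hqkan : ∀ k, ∀ s : ℂ, AnalyticAt ℂ (qk K k) s := by
    intro k s
    exact Finset.analyticAt_fun_prod _ fun j _ => analyticAt_id.add analyticAt_const
  set Ω : Set ℂ := {s : ℂ | -(K : ℝ) < s.re ∧ s.re < α} with hΩ
  have hΨan : AnalyticOnNhd ℂ Ψ Ω := by
    intro s hs
    refine Finset.analyticAt_fun_sum _ fun m _ => ?_
    refine (analyticAt_const.mul ((analyticAt_id.pow _).mul ?_)).mul ((hqan s).pow _)
    refine Finset.analyticAt_fun_prod _ fun y _ => AnalyticAt.fun_pow ?_ _
    refine (((hqan s).pow _).mul (hHan y s hs.1 hs.2)).add ?_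
    exact Finset.analyticAt_fun_sum _ fun k _ => analyticAt_const.mul ((hqkan k s).pow _)
  have hstrip : ∀ s : ℂ, 0 < s.re → s.re < α → Ψ s = 0 := by
    intro s hs1 hs2
    have hu' : ∀ y, u y s = qq K s ^ (l y + 1) * F y s := by
      intro y
      rw [hHeq y s hs1 hs2, mul_add, hu]
      simp only
      congr 1
      rw [Finset.mul_sum]
      refine Finset.sum_congr rfl fun k hk => ?_
      rw [qq_eq (Finset.mem_range.1 hk) s, mul_pow]
      have hne : s + k ≠ 0 := by
        intro h
        have h2 := congrArg Complex.re h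
        rw [Complex.add_re, Complex.natCast_re, Complex.zero_re] at h2
        have : (0 : ℝ) ≤ k := Nat.cast_nonneg k
        linarith
      field_simp
    have h1 := hP s hs1 hs2
    rw [eval_eq'] at h1
    have h2 : Ψ s = qq K s ^ W * ∑ m ∈ P.support, P.coeff m *
        ∏ o, (fun o : Option κ => o.elim s fun y => F y s) o ^ m o := by
      rw [hΨ, Finset.mul_sum]
      refine Finset.sum_congr rfl fun m hm => ?_
      have h3 : qq K s ^ W = qq K s ^ (∑ y, m (some y) * (l y + 1)) * qq K s ^ (W - Finsupp.weight (wt l) m) := by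
        rw [← pow_add, ← weight_eq, Nat.add_sub_cancel' (hmax m hm)]
      rw [h3, Fintype.prod_option, ← Finset.prod_pow_eq_pow_sum]
      simp only [Option.elim_none, Option.elim_some]
      have h4 : ∏ y, u y s ^ m (some y) =
          (∏ y, qq K s ^ (m (some y) * (l y + 1))) * ∏ y, F y s ^ m (some y) := by
        rw [← Finset.prod_mul_distrib]
        refine Finset.prod_congr rfl fun y _ => ?_
        rw [hu' y, mul_pow, ← pow_mul, mul_comm (l y + 1)]
      rw [h4]
      ring
    rw [h2, h1, mul_zero]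
  have hpre : IsPreconnected Ω := by
    have h1 : Convex ℝ Ω := by
      have h2 : Ω = {s : ℂ | -(K : ℝ) < s.re} ∩ {s : ℂ | s.re < α} := rfl
      rw [h2]
      exact (convex_halfSpace_re_gt _).inter (convex_halfSpace_re_lt _)
    exact h1.isPreconnected
  have hz : ((α / 2 : ℝ) : ℂ) ∈ Ω := by
    refine ⟨?_, ?_⟩
    · rw [Complex.ofReal_re]
      have : (0 : ℝ) ≤ K := Nat.cast_nonneg K
      linarith
    · rw [Complex.ofReal_re]
      linarith
  have hev : Ψ =ᶠ[𝓝 ((α / 2 : ℝ) : ℂ)] 0 := by
    have hopen : IsOpen {s : ℂ | 0 < s.re ∧ s.re < α} :=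
      (isOpen_lt continuous_const Complex.continuous_re).inter (isOpen_lt Complex.continuous_re continuous_const)
    have hmem : ((α / 2 : ℝ) : ℂ) ∈ {s : ℂ | 0 < s.re ∧ s.re < α} := by
      constructor
      · rw [Complex.ofReal_re]; linarith
      · rw [Complex.ofReal_re]; linarith
    filter_upwards [hopen.mem_nhds hmem] with s hs
    exact hstrip s hs.1 hs.2
  have hzero := hΨan.eqOn_zero_of_preconnected_of_eventuallyEq_zero hpre hz hev
  have hkΩ : (-(k0 : ℂ)) ∈ Ω := by
    refine ⟨?_, ?_⟩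
    · rw [Complex.neg_re, Complex.natCast_re, hK]
      push_cast
      linarith
    · rw [Complex.neg_re, Complex.natCast_re]
      have : (0 : ℝ) ≤ k0 := Nat.cast_nonneg k0
      linarith
  have hfin : Ψ (-(k0 : ℂ)) = 0 := hzero hkΩ
  set c := qk K k0 (-(k0 : ℂ)) with hc
  have hc0 : c ≠ 0 := qk_ne
  have hq0 : qq K (-(k0 : ℂ)) = 0 := by
    rw [qq_eq hkK]
    simp
  have huk : ∀ y, u y (-(k0 : ℂ)) = b y k0 * c ^ (l y + 1) := by
    intro y
    simp only [hu]
    rw [hq0, zero_pow (Nat.succ_ne_zero _), zero_mul, zero_add, Finset.sum_eq_single k0]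
    · intro k _ hk
      rw [qk_zero hkK hk, zero_pow (Nat.succ_ne_zero _), mul_zero]
    · intro h
      exact absurd (Finset.mem_range.2 hkK) h
  have hev2 : eval (fun o : Option κ => o.elim (-(k0 : ℂ)) fun y => b y k0) Q =
      ∑ m ∈ P.support, (if Finsupp.weight (wt l) m = W then P.coeff m else 0) *
        ((-(k0 : ℂ)) ^ m none * ∏ y, b y k0 ^ m (some y)) := by
    rw [eval_eq']
    have hsub : Q.support ⊆ P.support := by
      intro m hm
      rw [mem_support_iff, hQ, coeff_weightedHomogeneousComponent] at hm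
      rw [mem_support_iff]
      intro h
      rw [h] at hm
      simp at hm
    rw [Finset.sum_subset hsub]
    · refine Finset.sum_congr rfl fun m _ => ?_
      rw [hQ, coeff_weightedHomogeneousComponent, Fintype.prod_option]
      simp only [Option.elim_none, Option.elim_some]
    · intro m _ hm
      rw [notMem_support_iff.1 hm, zero_mul]
  have hmain : Ψ (-(k0 : ℂ)) = c ^ W * eval (fun o : Option κ => o.elim (-(k0 : ℂ)) fun y => b y k0) Q := by
    rw [hev2, Finset.mul_sum]
    simp only [hΨ]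
    refine Finset.sum_congr rfl fun m hm => ?_
    by_cases hmW : Finsupp.weight (wt l) m = W
    · rw [if_pos hmW, hmW, Nat.sub_self, pow_zero, mul_one]
      have h4 : ∏ y, u y (-(k0 : ℂ)) ^ m (some y) = c ^ W * ∏ y, b y k0 ^ m (some y) := by
        have h5 : c ^ W = ∏ y, c ^ (m (some y) * (l y + 1)) := by
          rw [Finset.prod_pow_eq_pow_sum, ← weight_eq, hmW]
        rw [h5, ← Finset.prod_mul_distrib]
        refine Finset.prod_congr rfl fun y _ => ?_
        rw [huk y, mul_pow, ← pow_mul, mul_comm (l y + 1)]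
        ring
      rw [h4]
      ring
    · rw [if_neg hmW, hq0, zero_pow, mul_zero]
      · ring
      · have h6 := hmax m hm
        have h7 : Finsupp.weight (wt l) m < W := lt_of_le_of_ne h6 hmW
        omega
  rw [hfin] at hmain
  exact mul_ne_zero (pow_ne_zero _ hc0) hk0 hmain.symm

end Pool.Agent.W5h46.MT
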