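import Pool.Agent.W5h46.MT.Cont2
import Pool.Agent.W5h46.MT.Poles
import Pool.Agent.H327R2.SC.ExpPoly

/-!
# Sequences of coefficient vectors without homogeneous polynomial relations
-/

set_option autoImplicit false

open Set Filter Topology MvPolynomial Finset

namespace Pool.Agent.W5h46.MT

/-- the vectors `(a y k)_y` satisfy, for all `k` together, no weighted homogeneous polynomial relation with coefficients
which are polynomials in `k` -/
def Independent {κ : Type} (l : κ → ℕ) (a : κ → ℕ → ℂ) : Prop :=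
  ∀ (W : ℕ) (P : MvPolynomial (Option κ) ℂ), P ≠ 0 → IsWeightedHomogeneous (wt l) P W →
    ∃ k : ℕ, eval (fun o : Option κ => o.elim (k : ℂ) fun y => a y k) P ≠ 0

theorem Independent.signed {κ : Type} [Fintype κ] {l : κ → ℕ} {a : κ → ℕ → ℂ} (h : Independent l a) (γ : κ → ℂ)
    (hγ : ∀ y, γ y ≠ 0) (W : ℕ) (P : MvPolynomial (Option κ) ℂ) (hP : P ≠ 0) (hW : IsWeightedHomogeneous (wt l) P W) :
    ∃ k : ℕ, eval (fun o : Option κ => o.elim (-(k : ℂ)) fun y => a y k * γ y) P ≠ 0 := by
  classical
  set c : (Option κ →₀ ℕ) → ℂ := fun m => (-1) ^ m none * ∏ y, γ y ^ m (some y) with hc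
  have hc0 : ∀ m, c m ≠ 0 := fun m =>
    mul_ne_zero (pow_ne_zero _ (by norm_num)) (Finset.prod_ne_zero_iff.2 fun y _ => pow_ne_zero _ (hγ y))
  set Q : MvPolynomial (Option κ) ℂ := ∑ m ∈ P.support, monomial m (P.coeff m * c m) with hQ
  have hcoeff : ∀ m, Q.coeff m = P.coeff m * c m := by
    intro m
    rw [hQ, coeff_sum]
    simp only [coeff_monomial]
    rw [Finset.sum_ite_eq' P.support m]
    split_ifs with h1
    · rfl
    · rw [notMem_support_iff.1 h1, zero_mul]
  have hQ0 : Q ≠ 0 := by
    intro h0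
    obtain ⟨m, hm⟩ := support_nonempty.2 hP
    have h1 := hcoeff m
    rw [h0, coeff_zero] at h1
    exact mul_ne_zero (mem_support_iff.1 hm) (hc0 m) h1.symm
  have hQW : IsWeightedHomogeneous (wt l) Q W := by
    intro m hm
    rw [hcoeff] at hm
    exact hW (left_ne_zero_of_mul hm)
  obtain ⟨k, hk⟩ := h W Q hQ0 hQW
  refine ⟨k, ?_⟩
  intro h0
  apply hk
  rw [hQ, map_sum, ← h0, eval_eq']
  refine Finset.sum_congr rfl fun m _ => ?_
  rw [eval_monomial, Finsupp.prod_fintype _ _ (fun _ => pow_zero _), Fintype.prod_option, Fintype.prod_option]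
  simp only [Option.elim_none, Option.elim_some, hc, mul_pow, Finset.prod_mul_distrib]
  rw [neg_pow (k : ℂ)]
  ring

/-- one function: infinitely many coefficients are different from zero -/
theorem independent_single (l : Fin 1 → ℕ) (a : Fin 1 → ℕ → ℂ) (ha : ∃ᶠ k in atTop, a 0 k ≠ 0) :
    Independent l a := by
  classical
  intro W P hP hW
  obtain ⟨m0, hm0⟩ := support_nonempty.2 hP
  have hm : ∀ m ∈ P.support, m (some 0) = m0 (some 0) := by
    intro m hm
    have h1 := hW (mem_support_iff.1 hm)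
    have h2 := hW (mem_support_iff.1 hm0)
    rw [weight_eq, Fin.sum_univ_one] at h1 h2
    exact Nat.eq_of_mul_eq_mul_right (Nat.succ_pos _) (h1.trans h2.symm)
  set p : Polynomial ℂ := ∑ m ∈ P.support, Polynomial.monomial (m none) (P.coeff m) with hp
  have hp0 : p ≠ 0 := by
    intro h0
    have h1 := congrArg (fun r => Polynomial.coeff r (m0 none)) h0
    simp only [hp, Polynomial.finsetSum_coeff, Polynomial.coeff_monomial, Polynomial.coeff_zero] at h1
    rw [Finset.sum_eq_single m0, if_pos rfl] at h1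
    · exact mem_support_iff.1 hm0 h1
    · intro m hmP hmm
      rw [if_neg]
      intro h2
      apply hmm
      ext o
      cases o with
      | none => exact h2
      | some y =>
        have : y = 0 := Subsingleton.elim _ _
        rw [this]
        exact hm m hmP
    · intro h2
      exact absurd hm0 h2
  have hev : ∀ k : ℕ, eval (fun o : Option (Fin 1) => o.elim (k : ℂ) fun y => a y k) P =
      p.eval (k : ℂ) * a 0 k ^ m0 (some 0) := by
    intro k
    rw [eval_eq', hp, Polynomial.eval_finsetSum, Finset.sum_mul]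
    refine Finset.sum_congr rfl fun m hmP => ?_
    rw [Fintype.prod_option, Fin.prod_univ_one, Polynomial.eval_monomial, ← hm m hmP]
    simp only [Option.elim_none, Option.elim_some]
    ring
  have hfin : {k : ℕ | p.eval (k : ℂ) = 0}.Finite := by
    have h1 : {k : ℕ | p.eval (k : ℂ) = 0} ⊆ (Nat.cast : ℕ → ℂ) ⁻¹' (p.roots.toFinset : Set ℂ) := by
      intro k hk
      simp only [Set.mem_preimage, Finset.mem_coe, Multiset.mem_toFinset]
      exact (Polynomial.mem_roots hp0).2 hk
    exact ((Finset.finite_toSet _).preimage Nat.cast_injective.injOn).subset h1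
  have hev2 : ∀ᶠ k : ℕ in atTop, p.eval (k : ℂ) ≠ 0 := by
    rw [← Nat.cofinite_eq_atTop]
    exact hfin.eventually_cofinite_notMem
  obtain ⟨k, hk1, hk2⟩ := (ha.and_eventually hev2).exists
  refine ⟨k, ?_⟩
  rw [hev]
  exact mul_ne_zero hk2 (pow_ne_zero _ hk1)

/-- the functions `f (λ_y t)`: the products of the `λ_y` of equal length are different -/
theorem independent_scaled {κ : Type} [Fintype κ] (l : ℕ) (β : ℕ → ℂ) (lam : κ → ℂ) (hβ : ∀ᶠ k in atTop, β k ≠ 0)
    (hlam : ∀ y, lam y ≠ 0)
    (hinj : ∀ e e' : κ → ℕ, ∑ y, e y = ∑ y, e' y → ∏ y, lam y ^ e y = ∏ y, lam y ^ e' y → e = e') :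
    Independent (fun _ : κ => l) (fun y k => β k * lam y ^ k) := by
  classical
  intro W P hP hW
  obtain ⟨m0, hm0⟩ := support_nonempty.2 hP
  set D := ∑ y, m0 (some y) with hD
  have hm : ∀ m ∈ P.support, ∑ y, m (some y) = D := by
    intro m hm
    have h1 := hW (mem_support_iff.1 hm)
    have h2 := hW (mem_support_iff.1 hm0)
    rw [weight_eq, ← Finset.sum_mul] at h1 h2
    exact Nat.eq_of_mul_eq_mul_right (Nat.succ_pos _) (h1.trans h2.symm)
  by_contra hcon
  push Not at hcon
  obtain ⟨k1, hk1⟩ := eventually_atTop.1 hβ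
  let ι := {e : κ → ℕ // ∑ y, e y = D}
  let μ : ι → ℂ := fun e => ∏ y, lam y ^ e.1 y
  have hμinj : Function.Injective μ := fun e e' h => Subtype.ext (hinj e.1 e'.1 (e.2.trans e'.2.symm) h)
  have hμ0 : ∀ e, μ e ≠ 0 := fun e => Finset.prod_ne_zero_iff.2 fun y _ => pow_ne_zero _ (hlam y)
  let ex : (Option κ →₀ ℕ) → ι := fun m =>
    if h : ∑ y, m (some y) = D then ⟨fun y => m (some y), h⟩ else ⟨fun y => m0 (some y), rfl⟩
  have hex : ∀ m ∈ P.support, (ex m).1 = fun y => m (some y) := by
    intro m hmP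
    simp only [ex]
    rw [dif_pos (hm m hmP)]
  let q0 : ι → Polynomial ℂ := fun e =>
    ∑ m ∈ P.support.filter (fun m => ex m = e), Polynomial.monomial (m none) (P.coeff m)
  let q : ι → Polynomial ℂ := fun e => Polynomial.C (μ e ^ k1) * (q0 e).comp (Polynomial.X + Polynomial.C (k1 : ℂ))
  have hq := Pool.Agent.H327R2.SC.expPoly_indep (P.support.image ex) μ hμinj hμ0 q (by
    intro k
    have h1 := hcon (k + k1)
    have h2 : ∀ m ∈ P.support, P.coeff m * ∏ o, (fun o : Option κ => o.elim (((k + k1 : ℕ) : ℂ))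
        fun y => β (k + k1) * lam y ^ (k + k1)) o ^ m o =
        β (k + k1) ^ D * (P.coeff m * (((k + k1 : ℕ) : ℂ)) ^ m none * μ (ex m) ^ (k + k1)) := by
      intro m hmP
      rw [Fintype.prod_option]
      simp only [Option.elim_none, Option.elim_some, μ]
      rw [hex m hmP, ← hm m hmP, ← Finset.prod_pow_eq_pow_sum, ← Finset.prod_pow]
      simp only [mul_pow, Finset.prod_mul_distrib, ← pow_mul]
      have h3 : ∀ y, lam y ^ ((k + k1) * m (some y)) = lam y ^ (m (some y) * (k + k1)) := fun y => by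
        rw [mul_comm]
      simp only [h3]
      ring
    rw [eval_eq', Finset.sum_congr rfl h2, ← Finset.mul_sum] at h1
    have h4 := (mul_eq_zero.1 h1).resolve_left (pow_ne_zero _ (hk1 _ (Nat.le_add_left _ _)))
    rw [← h4, ← Finset.sum_fiberwise_of_maps_to (s := P.support) (t := P.support.image ex) (g := ex)
      (fun m hmP => Finset.mem_image_of_mem _ hmP)]
    refine Finset.sum_congr rfl fun e _ => ?_
    simp only [q, q0]
    rw [Polynomial.eval_mul, Polynomial.eval_C, Polynomial.eval_comp, Polynomial.eval_add, Polynomial.eval_X,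
      Polynomial.eval_C, Polynomial.eval_finsetSum, Finset.mul_sum, Finset.sum_mul]
    refine Finset.sum_congr rfl fun m hmF => ?_
    rw [Polynomial.eval_monomial, (Finset.mem_filter.1 hmF).2]
    push_cast
    ring)
  have h5 := hq (ex m0) (Finset.mem_image_of_mem _ hm0)
  have h6 : q0 (ex m0) = 0 := by
    have h7 : Polynomial.C (μ (ex m0) ^ k1) ≠ 0 := Polynomial.C_ne_zero.2 (pow_ne_zero _ (hμ0 _))
    have h8 := (mul_eq_zero.1 h5).resolve_left h7
    have h9 := congrArg (fun r => r.comp (Polynomial.X - Polynomial.C (k1 : ℂ))) h8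
    simpa [Polynomial.comp_assoc] using h9
  have h10 := congrArg (fun r => Polynomial.coeff r (m0 none)) h6
  simp only [q0, Polynomial.finsetSum_coeff, Polynomial.coeff_monomial, Polynomial.coeff_zero] at h10
  rw [Finset.sum_eq_single m0, if_pos rfl] at h10
  · exact mem_support_iff.1 hm0 h10
  · intro m hmF hmm
    rw [if_neg]
    intro h2
    apply hmm
    obtain ⟨hmP, hme⟩ := Finset.mem_filter.1 hmF
    have h11 := congrArg Subtype.val hme
    rw [hex m hmP, hex m0 hm0] at h11
    ext o
    cases o with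
    | none => exact h2
    | some y => exact congrFun h11 y
  · intro h2
    exact (h2 (Finset.mem_filter.2 ⟨hm0, rfl⟩)).elim

end Pool.Agent.W5h46.MT
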