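import Pool.Agent.W5h46.MT.Ind
import Pool.Agent.Y771.RP.Rel
import Pool.Agent.R349.Generic

/-!
# Mellin transforms at almost all points of small height
-/

set_option autoImplicit false

open MeasureTheory Set Filter Topology Asymptotics NumberField

namespace Pool.Agent.W5h46.MT

/-- `f` is locally integrable on `(0, ∞)`, `O(t^(-α))` at infinity and has the asymptotic power series `∑ a_k t^k` at `0` -/
structure Admits (α : ℝ) (f : ℝ → ℂ) (a : ℕ → ℂ) : Prop where
  int : LocallyIntegrableOn f (Ioi 0)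
  top : f =O[atTop] fun t : ℝ => t ^ (-α)
  zero : ∀ K : ℕ, (fun t : ℝ => f t - ∑ k ∈ Finset.range K, a k * (t : ℂ) ^ k) =O[𝓝[>] 0] fun t : ℝ => t ^ (K : ℝ)

theorem locInd {κ : Type} [Fintype κ] (l : κ → ℕ) (f : κ → ℝ → ℂ) (a : κ → ℕ → ℂ) (α : ℝ) (hα : 0 < α)
    (hf : ∀ y, Admits α (f y) (a y)) (hind : Independent l a) :
    (∀ y, ∀ s : ℂ, 0 < s.re → s.re < α → AnalyticAt ℂ (mellin (lf (l y) (f y))) s) ∧
    ∀ s : ℂ, 0 < s.re → s.re < α → Y124.LocInd (fun y => mellin (lf (l y) (f y))) s := by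
  have hcont := fun y => cont (hf y).int (hf y).top (hf y).zero (l y)
  have han : ∀ y, ∀ s : ℂ, 0 < s.re → s.re < α → AnalyticAt ℂ (mellin (lf (l y) (f y))) s := by
    intro y s hs1 hs2
    obtain ⟨H, hH1, hH2⟩ := hcont y 0
    have hopen : IsOpen {s : ℂ | 0 < s.re ∧ s.re < α} :=
      (isOpen_lt continuous_const Complex.continuous_re).inter (isOpen_lt Complex.continuous_re continuous_const)
    refine (hH1 s (by simpa using hs1) hs2).congr ?_
    filter_upwards [hopen.mem_nhds ⟨hs1, hs2⟩] with z hz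
    rw [hH2 z hz.1 hz.2]
    simp
  refine ⟨han, fun s hs1 hs2 => ?_⟩
  refine Y771.RP.locInd_of (fun y => mellin (lf (l y) (f y))) {s : ℂ | 0 < s.re ∧ s.re < α} ?_ ?_ ?_ s ⟨hs1, hs2⟩
  · have h1 : Convex ℝ {s : ℂ | 0 < s.re ∧ s.re < α} := (convex_halfSpace_re_gt _).inter (convex_halfSpace_re_lt _)
    exact h1.isPreconnected
  · exact fun y t ht => han y t ht.1 ht.2
  · intro P hP
    refine indep_of_poles l _ α hα (fun y k => a y k * ((-1) ^ l y * (l y).factorial)) ?_ ?_ P
      fun t ht1 ht2 => hP t ⟨ht1, ht2⟩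
    · intro y K
      obtain ⟨H, hH1, hH2⟩ := hcont y K
      refine ⟨H, hH1, fun t ht1 ht2 => ?_⟩
      rw [hH2 t ht1 ht2]
      congr 1
      refine Finset.sum_congr rfl fun k _ => ?_
      ring
    · intro W Q hQ hQW
      exact hind.signed (fun y => (-1) ^ l y * (l y).factorial)
        (fun y => mul_ne_zero (pow_ne_zero _ (by norm_num)) (by exact_mod_cast (l y).factorial_ne_zero)) W Q hQ hQW

end Pool.Agent.W5h46.MT
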